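import Pool.Agent.Helper64.CF.CFN1Acore

/-!
MP_717b2e_co, upper bound: realization of the move N1, type A.
-/

namespace Pool.Agent.Helper95.CF

open Finset

variable {n : ℕ}

/-- move N1 of type A (`i` even): the chord `i` hops over the last bad pocket (on side A) and is
annihilated with the chord `i - 1`. -/
theorem move_N1A (hn : n % 2 = 1) {M N : NCM n} {K : ℕ} {a b : ℕ → ℕ} (C : Chords M K a b)
    {i j : ℕ} (hi : 2 ≤ i) (hij : i < j) (hj : j ≤ K) (hp : (i + j) % 2 = 1) (hiA : i % 2 = 0)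
    (S : St M N a b i j) (hne : a i + 1 < a j)
    (hl : a i + b i ≤ n + 1) (hu : n + 1 ≤ a j + b j) (hc : n + 1 < b i + a j) :
    ∃ N' : NCM n, St M N' a b (i - 2) j ∧ DistLe N N' 2 ∧ U N' - U N ≤ -4 := by
  clear hu
  obtain ⟨i, rfl⟩ : ∃ i', i = i' + 2 := ⟨i - 2, by omega⟩
  rw [Nat.add_sub_cancel]
  obtain ⟨e1, e2⟩ := St.ends C (by omega) hij hj S
  have ai := C.a_pos (i := i + 1) (by omega) (by omega)
  have ai2 := C.ga.mono (i := i + 1) (j := i + 2) (by omega) (by omega)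
  have ai0 := C.ga.mono (i := i) (j := i + 1) (by omega) (by omega)
  have aj := C.ga.mono hij (by omega)
  have bi := C.b_pos (i := i + 1) (by omega) (by omega)
  have bi2 := C.gb.mono (i := i + 1) (j := i + 2) (by omega) (by omega)
  have bi0 := C.gb.mono (i := i) (j := i + 1) (by omega) (by omega)
  have bj := C.gb.mono hij (by omega)
  have ajn := C.a_le hj
  have bjn := C.b_le hj
  have e3 : N.p (a (i + 1) - 1) = 2 * n - b (i + 1) := by
    rw [S.out _ (by omega) (by omega) (by omega)]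
    exact C.ch (i + 1) (by omega) (by omega)
  have pai : (a (i + 1) - 1) % 2 = 0 := by
    have := C.ga.par (i + 1) (by omega)
    omega
  have pai2 : (a (i + 2) - 1) % 2 = 1 := by
    have := C.ga.par (i + 2) (by omega)
    omega
  have pbi2 : (2 * n - b (i + 2) - n) % 2 = 1 := by
    have := C.gb.par (i + 2) (by omega)
    omega
  have paj : (a j - 2) % 2 = 1 := by
    have := C.ga.par j (by omega)
    omega
  clear hiA
  have gA : ∀ z, a (i + 1) ≤ z → z + 1 < a (i + 2) → a (i + 1) ≤ M.p z ∧ M.p z + 1 < a (i + 2) :=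
    C.gapA (i + 1) (by omega)
  have gB : ∀ z, 2 * n < z + b (i + 2) → z + b (i + 1) < 2 * n →
    2 * n < M.p z + b (i + 2) ∧ M.p z + b (i + 1) < 2 * n := C.gapB (i + 1) (by omega)
  obtain ⟨p0, hp0⟩ : ∃ p0, p0 = a (i + 1) - 1 := ⟨_, rfl⟩
  obtain ⟨p1, hp1⟩ : ∃ p1, p1 = a (i + 2) - 1 := ⟨_, rfl⟩
  obtain ⟨p3, hp3⟩ : ∃ p3, p3 = a j - 2 := ⟨_, rfl⟩
  obtain ⟨p2, hp2⟩ : ∃ p2, p2 = N.p p3 := ⟨_, rfl⟩
  obtain ⟨p4, hp4⟩ : ∃ p4, p4 = 2 * n - b (i + 2) := ⟨_, rfl⟩
  obtain ⟨p5, hp5⟩ : ∃ p5, p5 = 2 * n - b (i + 1) := ⟨_, rfl⟩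
  rw [← hp1, ← hp4] at e1
  rw [← hp0, ← hp5] at e3
  rw [← hp0] at pai
  rw [← hp1] at pai2
  rw [← hp4] at pbi2
  rw [← hp3] at paj
  have e4 := hp2.symm
  have hin := S.inA p3 (by omega) (by omega)
  have hne2 := N.p_ne (x := p3) (by omega)
  rw [e4] at hin hne2
  have par2 := N.p_parity (x := p3) (by omega)
  rw [e4] at par2
  have m2 : p2 % 2 = 0 := by omega
  have q0 : ∀ x, p0 < x → x < p1 → p0 < N.p x ∧ N.p x < p1 := by
    intro x h1 h2
    rw [S.out x (by omega) (by omega) (by omega)]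
    have := gA x (by omega) (by omega)
    omega
  have q1 : ∀ x, p1 < x → x ≤ p3 → p1 < N.p x ∧ N.p x ≤ p3 := by
    intro x h1 h2
    have h3 := S.inA x (by omega) (by omega)
    omega
  have q4 : ∀ x, p4 < x → x < p5 → p4 < N.p x ∧ N.p x < p5 := by
    intro x h1 h2
    rw [S.out x (by omega) (by omega) (by omega)]
    have := gB x (by omega) (by omega)
    omega
  have l01 : p0 < p1 := by omega
  have l12 : p1 < p2 := by omega
  have l23 : p2 < p3 := by omega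
  have l34 : p3 < n := by omega
  have ln : n ≤ p4 := by omega
  have l45 : p4 < p5 := by omega
  have l5 : p5 < 2 * n := by omega
  have d0 : p0 ≠ 0 ∨ p5 ≠ n := by omega
  have d1 : p1 ≠ 0 ∨ p4 ≠ n := by omega
  have k1 : p1 + n ≤ p4 := by omega
  have k2 : p4 ≤ n + p3 := by omega
  clear e2 gA gB hp2 par2
  obtain ⟨N', ⟨f0, f1, f2, f3, f4, f5, fu⟩, hd, hU⟩ := N1A_core hn (N := N) (p0 := p0) (p1 := p1)
    (p2 := p2) (p3 := p3) (p4 := p4) (p5 := p5) l01 l12 l23 l34 ln l45 l5 d0 d1 k1 k2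
    pai pai2 m2 paj pbi2 e3 e1 e4 q0 q1 q4
  clear e1 e3 e4 q0 q1 q4 pai pai2 m2 paj pbi2 hl hc hn
  refine ⟨N', ?_, hd, hU⟩
  apply St.glue C S (by omega) hij (by omega) (by omega)
    (fun z => z = p0 ∨ z = p1 ∨ z = p2 ∨ z = p3 ∨ z = p4 ∨ z = p5) fu
  · rintro z (rfl | rfl | rfl | rfl | rfl | rfl) hz <;> omega
  · rintro z (rfl | rfl | rfl | rfl | rfl | rfl) hz <;> omega
  · intro k h1 h2 h3
    have : k = i + 1 ∨ k = i + 2 := by omega
    rcases this with rfl | rfl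
    · exact ⟨by omega, by omega⟩
    · exact ⟨by omega, by omega⟩

end Pool.Agent.Helper95.CF
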