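import Pool.Agent.Helper95.CFRot

/-!
MP_717b2e_co, upper bound: the sum of the weights over all lines.
-/

namespace Pool.Agent.Helper95.CF

open Finset

variable {n : ℕ}

/-- the weight of the chord `s, s + d` -/
def gd (n d s : ℕ) : ℕ := ws n (s % (2 * n)) ((s + d) % (2 * n))

lemma uw_A {n x y : ℕ} (h0 : 0 < x) (hx : x < n) (hy : y < n) :
    uw n x y = if x % 2 = 0 then 2 else 0 := by
  unfold uw
  rw [if_neg (by omega), if_neg (by omega), if_pos hx, if_neg (by omega)]

lemma uw_B {n x y : ℕ} (h0 : n < x) (hy : n < y) :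
    uw n x y = if (x - n) % 2 = 0 then 2 else 0 := by
  unfold uw
  rw [if_neg (by omega), if_neg (by omega), if_neg (by omega)]

lemma uw_X {n x y : ℕ} (hx : x < n) (hy : n ≤ y) :
    uw n x y = if x = 0 ∧ y = n then 0 else 1 := by
  unfold uw
  by_cases h : x = 0
  · rw [if_pos h]
    by_cases h2 : y = n
    · rw [if_pos h2, if_pos ⟨h, h2⟩]
    · rw [if_neg h2, if_neg (by omega)]
  · rw [if_neg h, if_neg (show ¬ (x = 0 ∧ y = n) by omega)]
    by_cases h2 : y = n
    · rw [if_pos (Or.inr h2)]
    · rw [if_neg (by omega), if_pos hx, if_pos (by omega)]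

lemma ws_half_lt {n u v : ℕ} (hv : v < 2 * n) (huv : u < v) :
    ws n ((u + n) % (2 * n)) ((v + n) % (2 * n)) = ws n u v := by
  have e : ∀ w, w < 2 * n → (w + n) % (2 * n) = if w < n then w + n else w - n := by
    intro w hw
    split_ifs with h
    · exact Nat.mod_eq_of_lt (by omega)
    · rw [show w + n = (w - n) + 2 * n by omega, Nat.add_mod_right]
      exact Nat.mod_eq_of_lt (by omega)
  rw [e u (by omega), e v hv]
  rcases lt_or_ge v n with h1 | h1
  · rw [if_pos (by omega), if_pos h1]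
    unfold ws
    rw [if_pos (by omega), if_pos huv]
    rcases Nat.eq_zero_or_pos u with h0 | h0
    · subst h0
      unfold uw
      rw [if_neg (by omega), if_pos (by omega), if_pos rfl, if_neg (by omega)]
    · rw [uw_B (by omega) (by omega), uw_A h0 (by omega) h1, Nat.add_sub_cancel]
  · rw [if_neg (show ¬ v < n by omega)]
    rcases lt_or_ge u n with h2 | h2
    · rw [if_pos h2]
      unfold ws
      rw [if_neg (by omega), if_pos huv, uw_X (by omega) (by omega), uw_X h2 h1]
      split_ifs <;> omega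
    · rw [if_neg (by omega)]
      unfold ws
      rw [if_pos (by omega), if_pos huv]
      rcases Nat.eq_or_lt_of_le h2 with h0 | h0
      · subst h0
        unfold uw
        rw [if_pos (by omega), if_neg (by omega), if_neg (by omega), if_pos (by omega)]
      · rw [uw_B h0 (by omega), uw_A (by omega) (by omega) (by omega)]

/-- the weight is invariant under the half turn -/
lemma ws_half_of {n u v : ℕ} (hu : u < 2 * n) (hv : v < 2 * n) (huv : u ≠ v) :
    ws n ((u + n) % (2 * n)) ((v + n) % (2 * n)) = ws n u v := by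
  rcases Nat.lt_or_gt_of_ne huv with h | h
  · exact ws_half_lt hv h
  · rw [ws_comm, ws_comm n u v]
    exact ws_half_lt hu h

lemma add_half_mod (n s : ℕ) : (s + n) % (2 * n) = (s % (2 * n) + n) % (2 * n) := by
  rw [Nat.mod_add_mod]

lemma gd_period {n d : ℕ} (hd : d < 2 * n) (hd0 : 0 < d) (s : ℕ) : gd n d (s + n) = gd n d s := by
  unfold gd
  have hn : 0 < 2 * n := by omega
  rw [show s + n + d = s + d + n by omega, add_half_mod n s, add_half_mod n (s + d)]
  apply ws_half_of (Nat.mod_lt _ hn) (Nat.mod_lt _ hn)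
  intro h
  rw [Nat.add_mod, Nat.mod_eq_of_lt hd] at h
  have h1 := Nat.mod_lt s hn
  generalize s % (2 * n) = u at h h1
  by_cases h2 : u + d < 2 * n
  · rw [Nat.mod_eq_of_lt h2] at h
    omega
  · rw [show u + d = (u + d - 2 * n) + 2 * n by omega, Nat.add_mod_right,
      Nat.mod_eq_of_lt (by omega)] at h
    omega

/-- sum of a periodic function over a period -/
lemma sum_shift {n : ℕ} (g : ℕ → ℕ) (hg : ∀ s, g (s + n) = g s) (x : ℕ) :
    ∑ t ∈ range n, g (x + t) = ∑ t ∈ range n, g t := by
  induction x with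
  | zero => simp
  | succ x ih =>
    rw [← ih]
    have h1 := Finset.sum_range_succ' (fun t => g (x + t)) n
    have h2 := Finset.sum_range_succ (fun t => g (x + t)) n
    rw [h1] at h2
    rw [hg x] at h2
    have h3 : ∑ t ∈ range n, g (x + 1 + t) = ∑ t ∈ range n, g (x + (t + 1)) := by
      apply Finset.sum_congr rfl
      intro t _
      congr 1
      omega
    rw [h3]
    simp only [Nat.add_zero] at h2
    exact Nat.add_right_cancel h2

lemma gd_eval {n d k : ℕ} (hd : d < 2 * n) (hk : k < n) :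
    gd n d k = if k + d < 2 * n then ws n k (k + d) else ws n k (k + d - 2 * n) := by
  have e1 : k % (2 * n) = k := Nat.mod_eq_of_lt (by omega)
  unfold gd
  rw [e1]
  split_ifs with h
  · rw [Nat.mod_eq_of_lt h]
  · rw [show k + d = (k + d - 2 * n) + 2 * n by omega, Nat.add_mod_right,
      Nat.mod_eq_of_lt (by omega), Nat.add_sub_cancel]

lemma gd_lt {n d k : ℕ} (hd : d < n) (hk : k < n) (hd0 : 0 < d) :
    gd n d k = if k = 0 then 1 else if k + d < n then (if k % 2 = 0 then 2 else 0) else 1 := by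
  rw [gd_eval (by omega) hk, if_pos (by omega)]
  unfold ws
  rw [if_pos (by omega)]
  unfold uw
  split_ifs <;> omega

lemma gd_eq {n k : ℕ} (hk : k < n) :
    gd n n k = if k = 0 then 0 else 1 := by
  rw [gd_eval (by omega) hk, if_pos (by omega)]
  unfold ws
  rw [if_pos (by omega)]
  unfold uw
  split_ifs <;> omega

lemma gd_gt {n d k : ℕ} (hd : n < d) (hd2 : d < 2 * n) (hk : k < n) :
    gd n d k = if k + d ≤ 2 * n then 1 else if (k + d - 2 * n) % 2 = 0 then 2 else 0 := by
  rw [gd_eval hd2 hk]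
  by_cases h3 : k + d < 2 * n
  · rw [if_pos h3, if_pos (by omega)]
    unfold ws
    rw [if_pos (by omega)]
    unfold uw
    split_ifs <;> omega
  · rw [if_neg h3]
    unfold ws
    rw [if_neg (by omega)]
    unfold uw
    split_ifs <;> omega

lemma sum_gd_lt {n d : ℕ} (hn : n % 2 = 1) (hd : d < n) (hd0 : d % 2 = 1) (k : ℕ)
    (hk : k ≤ n) : ∑ s ∈ range k, gd n d s =
      if k = 0 then 0 else if k ≤ n - d then 1 + 2 * ((k - 1) / 2)
        else 1 + 2 * ((n - d - 1) / 2) + (k - (n - d)) := by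
  induction k with
  | zero => simp
  | succ k ih =>
    rw [Finset.sum_range_succ, ih (by omega), gd_lt hd (by omega) (by omega)]
    clear ih
    rw [if_neg (show ¬ k + 1 = 0 by omega)]
    by_cases h1 : k = 0
    · rw [if_pos h1, if_pos h1, if_pos (by omega)]
      omega
    · rw [if_neg h1, if_neg h1]
      split_ifs <;> omega

lemma sum_gd_eq {n : ℕ} (k : ℕ) (hk : k ≤ n) : ∑ s ∈ range k, gd n n s = k - 1 := by
  induction k with
  | zero => simp
  | succ k ih =>
    rw [Finset.sum_range_succ, ih (by omega), gd_eq (by omega)]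
    split_ifs <;> omega

lemma sum_gd_gt {n d : ℕ} (hd : n < d) (hd2 : d < 2 * n) (k : ℕ)
    (hk : k ≤ n) : ∑ s ∈ range k, gd n d s =
      if k ≤ 2 * n - d + 1 then k
        else 2 * n - d + 1 + 2 * ((k - 1 - (2 * n - d)) / 2) := by
  induction k with
  | zero => simp
  | succ k ih =>
    rw [Finset.sum_range_succ, ih (by omega), gd_gt hd hd2 (by omega)]
    split_ifs <;> omega

lemma sum_gd {n d : ℕ} (hn : n % 2 = 1) (hd : d < 2 * n) (hd0 : d % 2 = 1) :
    ∑ s ∈ range n, gd n d s = n - 1 := by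
  rcases lt_trichotomy d n with h | h | h
  · rw [sum_gd_lt hn h hd0 n le_rfl]
    split_ifs <;> omega
  · subst h
    rw [sum_gd_eq d le_rfl]
  · rw [sum_gd_gt h hd n le_rfl]
    split_ifs <;> omega

/-- the sum over all lines of the weight of one chord -/
lemma sum_ws (hn : n % 2 = 1) {x y : ℕ} (hx : x < 2 * n) (hy : y < 2 * n)
    (hp : (x + y) % 2 = 1) :
    ∑ t ∈ range n, ws n ((x + t) % (2 * n)) ((y + t) % (2 * n)) = n - 1 := by
  have key : ∀ {x y : ℕ}, x < y → y < 2 * n → (x + y) % 2 = 1 →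
      ∑ t ∈ range n, ws n ((x + t) % (2 * n)) ((y + t) % (2 * n)) = n - 1 := by
    intro x y hxy hy hp
    rw [← sum_gd (n := n) (d := y - x) hn (by omega) (by omega),
      ← sum_shift (gd n (y - x)) (gd_period (by omega) (by omega)) x]
    apply Finset.sum_congr rfl
    intro t _
    unfold gd
    rw [show x + t + (y - x) = y + t by omega]
  rcases lt_trichotomy x y with h | h | h
  · exact key h hy hp
  · omega
  · rw [← key h hx (by omega)]
    apply Finset.sum_congr rfl
    intro t _
    exact ws_comm _ _ _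

/-- the weight of a rotated matching -/
lemma U_rotk (hn : 0 < n) (M : NCM n) (t : ℕ) :
    U (rot^[t] M) = ∑ x ∈ range (2 * n),
      (ws n ((x + t) % (2 * n)) ((M.p x + t) % (2 * n)) : ℤ) := by
  unfold U
  symm
  have h2 : 0 < 2 * n := by omega
  apply Finset.sum_bij (fun x _ => (x + t) % (2 * n))
  · intro x hx
    exact mem_range.2 (Nat.mod_lt _ h2)
  · intro x hx y hy h
    rw [mem_range] at hx hy
    have h3 : x ≡ y [MOD 2 * n] := Nat.ModEq.add_right_cancel' t h
    rwa [Nat.ModEq, Nat.mod_eq_of_lt hx, Nat.mod_eq_of_lt hy] at h3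
  · intro y hy
    rw [mem_range] at hy
    refine ⟨(y + (2 * n - t % (2 * n))) % (2 * n), mem_range.2 (Nat.mod_lt _ h2), ?_⟩
    have h4 : (y + (2 * n - t % (2 * n)) + t) ≡ y [MOD 2 * n] := by
      have h5 := Nat.mod_lt t h2
      have h6 := Nat.div_add_mod t (2 * n)
      have h7 : y + (2 * n - t % (2 * n)) + t = y + (2 * n) * (t / (2 * n) + 1) := by
        rw [Nat.mul_add, Nat.mul_one]
        omega
      rw [h7]
      exact (Nat.modEq_iff_dvd' (by omega)).2 ⟨t / (2 * n) + 1, by omega⟩ |>.symm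
    rw [Nat.mod_add_mod]
    rw [Nat.ModEq, Nat.mod_eq_of_lt hy] at h4
    exact h4
  · intro x hx
    rw [mem_range] at hx
    rw [rotk_p M t hx]

theorem sum_U_rot (hn : n % 2 = 1) (M : NCM n) :
    ∑ t ∈ range n, U (rot^[t] M) = 2 * (n : ℤ) * (n - 1) := by
  have h0 : 0 < n := by omega
  have h1 : ∀ t ∈ range n, U (rot^[t] M) = ∑ x ∈ range (2 * n),
      (ws n ((x + t) % (2 * n)) ((M.p x + t) % (2 * n)) : ℤ) := fun t _ => U_rotk h0 M t
  rw [Finset.sum_congr rfl h1, Finset.sum_comm]
  have h2 : ∀ x ∈ range (2 * n), ∑ t ∈ range n,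
      (ws n ((x + t) % (2 * n)) ((M.p x + t) % (2 * n)) : ℤ) = (n : ℤ) - 1 := by
    intro x hx
    rw [mem_range] at hx
    have := sum_ws hn hx (M.p_lt hx) (M.p_parity hx)
    have h3 := congrArg (Nat.cast : ℕ → ℤ) this
    push_cast [Nat.cast_sub (show 1 ≤ n by omega)] at h3
    exact h3
  rw [Finset.sum_congr rfl h2, Finset.sum_const, card_range, nsmul_eq_mul]
  push_cast
  ring

end Pool.Agent.Helper95.CF
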